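import Mathlib

set_option autoImplicit false

open Set Filter Topology

namespace Pool.Agent.H827Z.Helly

/-- The Helly space: monotone maps from the line to the unit interval. -/
def H : Set (ℝ → ℝ) := {h | Monotone h ∧ ∀ t, h t ∈ Icc (0 : ℝ) 1}

theorem isClosed_H : IsClosed H := by
  have h1 : IsClosed {h : ℝ → ℝ | Monotone h} := isClosed_monotone
  have h2 : IsClosed {h : ℝ → ℝ | ∀ t, h t ∈ Icc (0 : ℝ) 1} := by
    rw [setOf_forall]
    exact isClosed_iInter fun t => isClosed_Icc.preimage (continuous_apply t)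
  exact h1.inter h2

theorem isCompact_H : IsCompact H := by
  have h : IsCompact (Set.pi univ fun _ : ℝ => Icc (0 : ℝ) 1) :=
    isCompact_univ_pi fun _ => isCompact_Icc
  exact h.of_isClosed_subset isClosed_H fun f hf t _ => hf.2 t

/-- pigeonhole for uncountable sets -/
theorem unc_fiber {ι C : Type*} [Countable C] {T : Set ι} (hT : ¬ T.Countable)
    (P : ι → C → Prop) (hP : ∀ t ∈ T, ∃ c, P t c) : ∃ c, ¬ {t ∈ T | P t c}.Countable := by
  by_contra hc
  push Not at hc
  apply hT
  refine (countable_iUnion hc).mono fun t ht => ?_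
  obtain ⟨c, hc⟩ := hP t ht
  exact mem_iUnion.2 ⟨c, ht, hc⟩

/-- all but countably many points are condensation points -/
theorem cond_countable {ι X : Type*} [TopologicalSpace X] [SecondCountableTopology X]
    (x : ι → X) (T : Set ι) :
    {t ∈ T | ∃ U ∈ 𝓝 (x t), (T ∩ x ⁻¹' U).Countable}.Countable := by
  have hb := TopologicalSpace.isBasis_countableBasis X
  have hc := TopologicalSpace.countable_countableBasis X
  have : (⋃ b ∈ {b ∈ TopologicalSpace.countableBasis X | (T ∩ x ⁻¹' b).Countable},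
      T ∩ x ⁻¹' b).Countable :=
    (hc.mono (sep_subset _ _)).biUnion fun b hb => hb.2
  refine this.mono ?_
  rintro t ⟨ht, U, hU, hcU⟩
  obtain ⟨b, hbm, hxb, hbU⟩ := hb.mem_nhds_iff.1 hU
  exact mem_biUnion (x := b) ⟨hbm, hcU.mono (inter_subset_inter_right _ (preimage_mono hbU))⟩
    ⟨ht, hxb⟩

/-- an uncountable set of reals has a right condensation point -/
theorem exists_rc {T : Set ℝ} (hT : ¬ T.Countable) :
    ∃ s ∈ T, ∀ ρ > 0, ¬ (T ∩ Ioo s (s + ρ)).Countable := by
  set B := {t ∈ T | ∃ U ∈ 𝓝 (id t), (T ∩ id ⁻¹' U).Countable} with hB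
  have hBc : B.Countable := cond_countable id T
  have hI := countable_setOfPred_isolated_right_within (s := T \ B)
  by_contra hcon
  push Not at hcon
  apply hT
  refine (hBc.union hI).mono fun t ht => ?_
  by_cases htB : t ∈ B
  · exact Or.inl htB
  · right
    refine ⟨⟨ht, htB⟩, ?_⟩
    obtain ⟨ρ, hρ, hc⟩ := hcon t ht
    rw [← empty_mem_iff_bot, mem_nhdsWithin]
    refine ⟨Iio (t + ρ), isOpen_Iio, by simpa using hρ, ?_⟩
    rintro r ⟨hr1, ⟨hrT, hrB⟩, hr2⟩
    exact hrB ⟨hrT, Ioo t (t + ρ), Ioo_mem_nhds hr2 hr1, hc⟩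

/-- continuity on the Helly space in terms of finitely many coordinates -/
theorem cont_fin {φ : (ℝ → ℝ) → ℝ} (hφ : ContinuousOn φ H) {f : ℝ → ℝ} (hf : f ∈ H) {ε : ℝ}
    (hε : 0 < ε) : ∃ F : Finset ℝ, ∃ δ > 0, ∀ g ∈ H, (∀ r ∈ F, |g r - f r| < δ) →
      |φ g - φ f| < ε := by
  have h1 : ∀ᶠ g in 𝓝[H] f, |φ g - φ f| < ε := by
    have := Metric.tendsto_nhds.1 (hφ f hf) ε hε
    simpa [Real.dist_eq] using this
  rw [eventually_nhdsWithin_iff, nhds_pi, Filter.Eventually, Filter.mem_pi'] at h1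
  obtain ⟨F, U, hU, hsub⟩ := h1
  have h2 : ∀ r, ∃ δ > 0, Metric.ball (f r) δ ⊆ U r := fun r => Metric.mem_nhds_iff.1 (hU r)
  choose δ hδ hball using h2
  obtain ⟨δ0, hδ0, hle⟩ : ∃ δ0 > 0, ∀ r ∈ F, δ0 ≤ δ r := by
    rcases F.eq_empty_or_nonempty with rfl | hne
    · exact ⟨1, one_pos, by simp⟩
    · obtain ⟨r0, _, hr⟩ := F.exists_min_image δ hne
      exact ⟨δ r0, hδ r0, hr⟩
  refine ⟨F, δ0, hδ0, fun g hg hgf => hsub (fun r hr => hball r ?_) hg⟩
  rw [Metric.mem_ball, Real.dist_eq]
  exact (hgf r hr).trans_le (hle r hr)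

/-- a gap around finitely many points -/
theorem exists_gap (F G : Finset ℝ) :
    ∃ k : ℕ, ∀ r ∈ F, ∀ s ∈ G, r ≠ s → 1 / ((k : ℝ) + 1) < |r - s| := by
  have : ∀ᶠ k : ℕ in atTop, ∀ r ∈ F, ∀ s ∈ G, r ≠ s → 1 / ((k : ℝ) + 1) < |r - s| := by
    simp only [eventually_all_finset]
    intro r _ s _
    by_cases h : r = s
    · simp [h]
    · have hp : 0 < |r - s| := abs_pos.2 (sub_ne_zero.2 h)
      filter_upwards [tendsto_one_div_add_atTop_nhds_zero_nat.eventually (gt_mem_nhds hp)]
        with k hk _ using hk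
  exact this.exists

/-- monotone bounded functions are of the first Baire class -/
theorem baire_one {h : ℝ → ℝ} (hh : h ∈ H) : ∃ u : ℕ → ℝ → ℝ, (∀ n, Continuous (u n)) ∧
    ∀ x, Tendsto (fun n => u n x) atTop (𝓝 (h x)) := by
  have hD : ({x | ¬ ContinuousAt h x} ∪ range ((↑) : ℚ → ℝ)).Countable :=
    hh.1.countable_not_continuousAt.union (countable_range _)
  obtain ⟨d, hd⟩ := hD.exists_eq_range ⟨0, Or.inr ⟨0, by simp⟩⟩
  have hN : ∀ n : ℕ, ∃ N : ℝ, (n : ℝ) ≤ N ∧ ∀ k ≤ n, ∀ l ≤ n, d k < d l → 1 ≤ N * (d l - d k) := by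
    intro n
    have : ∀ᶠ N : ℝ in atTop, (n : ℝ) ≤ N ∧ ∀ k ∈ Finset.range (n + 1), ∀ l ∈ Finset.range (n + 1),
        d k < d l → 1 ≤ N * (d l - d k) := by
      refine (eventually_ge_atTop _).and ?_
      simp only [eventually_all_finset]
      intro k _ l _
      by_cases hkl : d k < d l
      · filter_upwards [eventually_ge_atTop (1 / (d l - d k))] with N hN _
        rwa [div_le_iff₀ (sub_pos.2 hkl)] at hN
      · simp [hkl]
    obtain ⟨N, h1, h2⟩ := this.exists
    exact ⟨N, h1, fun k hk l hl => h2 k (Finset.mem_range.2 (by omega)) l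
      (Finset.mem_range.2 (by omega))⟩
  choose N hN1 hN2 using hN
  have hne : ∀ n : ℕ, (Finset.range (n + 1)).Nonempty := fun n => by simp
  refine ⟨fun n x => max 0 ((Finset.range (n + 1)).sup' (hne n)
    fun k => h (d k) - N n * max 0 (d k - x)), fun n => ?_, fun x => ?_⟩
  · refine continuous_const.max ?_
    have := Continuous.finset_sup'_apply (hne n)
      (f := fun k x => h (d k) - N n * max 0 (d k - x)) (fun k _ => by fun_prop)
    exact this
  · have hNpos : ∀ n, 0 ≤ N n := fun n => (Nat.cast_nonneg n).trans (hN1 n)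
    have hlow : ∀ k n, k ≤ n → d k ≤ x → h (d k) ≤ max 0 ((Finset.range (n + 1)).sup' (hne n)
        fun k => h (d k) - N n * max 0 (d k - x)) := by
      intro k n hk hx
      refine le_max_of_le_right ?_
      refine le_trans ?_ (Finset.le_sup' (fun k => h (d k) - N n * max 0 (d k - x))
        (Finset.mem_range.2 (Nat.lt_succ_of_le hk)))
      simp [max_eq_left (sub_nonpos.2 hx)]
    by_cases hx : x ∈ range d
    · obtain ⟨k, rfl⟩ := hx
      refine tendsto_const_nhds.congr' ?_
      filter_upwards [eventually_ge_atTop k] with n hn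
      refine le_antisymm (hlow k n hn le_rfl) (max_le (hh.2 _).1 ?_)
      refine Finset.sup'_le _ _ fun l hl => ?_
      have hl' : l ≤ n := Nat.lt_succ_iff.1 (Finset.mem_range.1 hl)
      rcases le_or_gt (d l) (d k) with h1 | h1
      · have := hh.1 h1
        simp [max_eq_left (sub_nonpos.2 h1), this]
      · have := hN2 n k hn l hl' h1
        rw [max_eq_right (sub_pos.2 h1).le]
        linarith [(hh.2 (d l)).2, (hh.2 (d k)).1]
    · have hc : ContinuousAt h x := by
        by_contra hc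
        exact hx (hd ▸ Or.inl hc)
      rw [Metric.tendsto_atTop]
      intro ε hε
      obtain ⟨η, hη, hball⟩ := Metric.continuousAt_iff.1 hc ε hε
      obtain ⟨r, hr1, hr2⟩ := exists_rat_btwn (show x - η < x by linarith)
      obtain ⟨k, hk⟩ : (r : ℝ) ∈ range d := hd ▸ Or.inr ⟨r, rfl⟩
      obtain ⟨M, hM⟩ := exists_nat_ge (2 / η)
      refine ⟨max k M, fun n hn => ?_⟩
      have hkn : k ≤ n := le_of_max_le_left hn
      have hMn : (M : ℝ) ≤ n := by exact_mod_cast le_of_max_le_right hn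
      have h1 := hlow k n hkn (by rw [hk]; exact hr2.le)
      have h2 : dist (h r) (h x) < ε := hball (by rw [Real.dist_eq, abs_lt]; constructor <;> linarith)
      have h3 : dist (h (x + η / 2)) (h x) < ε :=
        hball (by rw [Real.dist_eq, abs_lt]; constructor <;> linarith)
      rw [Real.dist_eq, abs_lt] at h2 h3 ⊢
      rw [hk] at h1
      refine ⟨by linarith, ?_⟩
      have h4 : max 0 ((Finset.range (n + 1)).sup' (hne n)
          fun k => h (d k) - N n * max 0 (d k - x)) ≤ h (x + η / 2) := by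
        refine max_le (hh.2 _).1 (Finset.sup'_le _ _ fun l _ => ?_)
        rcases le_or_gt (d l) (x + η / 2) with h5 | h5
        · have := hh.1 h5
          have h6 : 0 ≤ N n * max 0 (d l - x) := mul_nonneg (hNpos n) (le_max_left _ _)
          linarith
        · have h6 : η / 2 ≤ max 0 (d l - x) := le_max_of_le_right (by linarith)
          have h7 : 2 / η ≤ N n := hM.trans (hMn.trans (hN1 n))
          have h8 : 2 / η * (η / 2) ≤ N n * max 0 (d l - x) :=
            mul_le_mul h7 h6 (by linarith) (hNpos n)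
          have h9 : 2 / η * (η / 2) = 1 := by field_simp
          linarith [(hh.2 (d l)).2, (hh.2 (x + η / 2)).1]
      linarith

end Pool.Agent.H827Z.Helly
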