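import Pool.Agent.H827Z.Helly.Split

set_option autoImplicit false

open Set Filter Topology

namespace Pool.Agent.H827Z.Helly

variable {X : Type*}

theorem no_good [MetricSpace X] [SecondCountableTopology X] [CompleteSpace X]
    {Φ : X → (ℝ → ℝ) → ℝ} {x : ℝ → X}
    (hΦ : ∀ y, ContinuousOn (Φ y) H)
    (hsc : ∀ f ∈ H, ∀ A : Set X, A.Nonempty → ∃ a ∈ A, ContinuousWithinAt (fun y => Φ y f) A a)
    {S0 : St} (hS0 : Good Φ x S0) (hn0 : S0.n = 0) : False := by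
  have hstep : ∀ (n : ℕ) (S : {S : St // Good Φ x S ∧ S.n = n}),
      ∃ S' : {S : St // Good Φ x S ∧ S.n = n + 1},
        Rel Φ x S.1 S'.1 (Nat.unpair n).1 (1 / ((n : ℝ) + 1)) := by
    intro n S
    obtain ⟨S', h1, h2⟩ := step hΦ hsc S.2.1 (i := (Nat.unpair n).1)
      (by rw [S.2.2]; exact Nat.unpair_left_le n) (ε := 1 / ((n : ℝ) + 1)) (by positivity)
    exact ⟨⟨S', h1, by rw [h2.n_eq, S.2.2]⟩, h2⟩
  choose nxt hnxt using hstep
  let seq : ∀ n : ℕ, {S : St // Good Φ x S ∧ S.n = n} := fun n =>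
    Nat.rec (motive := fun n => {S : St // Good Φ x S ∧ S.n = n}) ⟨S0, hS0, hn0⟩ nxt n
  let S : ℕ → St := fun n => (seq n).1
  have hG : ∀ n, Good Φ x (S n) := fun n => (seq n).2.1
  have hn : ∀ n, (S n).n = n := fun n => (seq n).2.2
  have hR : ∀ n, Rel Φ x (S n) (S (n + 1)) (Nat.unpair n).1 (1 / ((n : ℝ) + 1)) :=
    fun n => hnxt n (seq n)
  clear_value S
  clear seq hnxt nxt
  -- stability
  have hmono : ∀ j n, j ≤ n → ∀ k, n ≤ k → ((S k).B j).T ⊆ ((S n).B j).T ∧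
      ((S k).B j).hi = ((S n).B j).hi ∧ ((S k).B j).top = ((S n).B j).top ∧
      ((S k).B j).cap = ((S n).B j).cap := by
    intro j n hjn k hk
    induction k, hk using Nat.le_induction with
    | base => exact ⟨subset_rfl, rfl, rfl, rfl⟩
    | succ k hk ih =>
      have hj : j ≤ (S k).n := by rw [hn]; omega
      exact ⟨((hR k).T_sub j hj).trans ih.1, ((hR k).hi_eq j hj).trans ih.2.1,
        ((hR k).top_eq j hj).trans ih.2.2.1, ((hR k).cap_eq j hj).trans ih.2.2.2⟩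
  have hne : ∀ j k, ((S (j + k)).B j).T.Nonempty := by
    intro j k
    by_contra h
    rw [not_nonempty_iff_eq_empty] at h
    refine (hG (j + k)).rc j (by rw [hn]; omega) 1 one_pos ?_
    rw [h]; simp
  choose t ht using hne
  have hε : Tendsto (fun k : ℕ => 1 / ((k : ℝ) + 1)) atTop (𝓝 0) :=
    tendsto_one_div_add_atTop_nhds_zero_nat
  have hpl : ∀ j k, k ≤ Nat.pair j k := fun j k => Nat.right_le_pair j k
  have hpj : ∀ j k, j ≤ Nat.pair j k := fun j k => Nat.left_le_pair j k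
  have hpt : ∀ j, Tendsto (fun k => Nat.pair j k) atTop atTop := fun j =>
    tendsto_atTop_mono (hpl j) tendsto_id
  have hcauchy : ∀ j, CauchySeq fun k => x (t j k) := by
    intro j
    rw [Metric.cauchySeq_iff']
    intro ε hε0
    obtain ⟨k0, hk0⟩ := ((hε.comp (hpt j)).eventually (gt_mem_nhds hε0)).exists
    obtain ⟨T0, h1, _, _, h4⟩ := (hR (Nat.pair j k0)).loc
    rw [Nat.unpair_pair] at h1
    have hmem : ∀ k, Nat.pair j k0 + 1 ≤ k → x (t j k) ∈ closure (x '' T0) := fun k hk =>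
      subset_closure ⟨_, h1 ((hmono j _ (by linarith [hpj j k0]) (j + k) (by omega)).1 (ht j k)),
        rfl⟩
    exact ⟨Nat.pair j k0 + 1, fun k hk => (h4 _ (hmem k hk) _ (hmem _ le_rfl)).trans_lt hk0⟩
  choose y hy using fun j => cauchySeq_tendsto_of_complete (hcauchy j)
  have hycl : ∀ j n, j ≤ n → ∀ T0 : Set ℝ, ((S n).B j).T ⊆ T0 → y j ∈ closure (x '' T0) := by
    intro j n hjn T0 hT0
    refine mem_closure_of_tendsto (hy j) ?_
    filter_upwards [eventually_ge_atTop n] with k hk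
    exact ⟨_, hT0 ((hmono j n hjn (j + k) (by omega)).1 (ht j k)), rfl⟩
  -- the limit function
  have hanti : ∀ r, Antitone fun n => (S n).u r := fun r =>
    antitone_nat_of_succ_le fun n => (hR n).u_le r
  have hbdd : ∀ r, BddBelow (range fun n => (S n).u r) := fun r =>
    ⟨0, by rintro _ ⟨n, rfl⟩; exact ((hG n).uH.2 r).1⟩
  set f : ℝ → ℝ := fun r => ⨅ n, (S n).u r with hf
  have hlim : Tendsto (fun n => (S n).u) atTop (𝓝 f) :=
    tendsto_pi_nhds.2 fun r => tendsto_atTop_ciInf (hanti r) (hbdd r)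
  have hfH : f ∈ H := isClosed_H.mem_of_tendsto hlim (Eventually.of_forall fun n => (hG n).uH)
  have hval : ∀ j, Φ (y j) f ∈ Icc ((S j).B j).hi ((S j).B j).top := by
    intro j
    have h1 : Tendsto (fun k => Φ (y j) (S (Nat.pair j k)).u) atTop (𝓝 (Φ (y j) f)) :=
      ((hΦ (y j) f hfH).tendsto.comp (tendsto_nhdsWithin_iff.2
        ⟨hlim, Eventually.of_forall fun n => (hG n).uH⟩)).comp (hpt j)
    have h2 : ∀ k, Φ (y j) (S (Nat.pair j k)).u ∈
        Icc (((S j).B j).hi - 1 / ((Nat.pair j k : ℝ) + 1))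
          (((S j).B j).top + 1 / ((Nat.pair j k : ℝ) + 1)) := by
      intro k
      obtain ⟨T0, h1, _, h3, _⟩ := (hR (Nat.pair j k)).loc
      rw [Nat.unpair_pair] at h1 h3
      have := h3 _ (hycl j _ (by linarith [hpj j k]) T0 h1)
      obtain ⟨_, e1, e2, _⟩ := hmono j j le_rfl _ (hpj j k)
      rwa [e1, e2] at this
    have h3 := hε.comp (hpt j)
    constructor
    · have := le_of_tendsto_of_tendsto' (tendsto_const_nhds.sub h3) h1 fun k => (h2 k).1
      simpa using this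
    · have := le_of_tendsto_of_tendsto' h1 (tendsto_const_nhds.add h3) fun k => (h2 k).2
      simpa using this
  obtain ⟨_, ⟨j, rfl⟩, hcont⟩ := hsc f hfH (range y) (range_nonempty y)
  have hch := (hG j).ch j (by rw [hn])
  obtain ⟨δ, hδ, hball⟩ := Metric.continuousWithinAt_iff.1 hcont _ (sub_pos.2 hch)
  obtain ⟨k0, hk0⟩ := ((hε.comp (hpt j)).eventually (gt_mem_nhds hδ)).exists
  set n := Nat.pair j k0 with hndef
  obtain ⟨T0, h1, h2, _, h4⟩ := (hR n).loc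
  have h5 := (hR n).child
  rw [hndef, Nat.unpair_pair, ← hndef] at h1 h5
  rw [hn] at h2 h5
  have h6 := hball (mem_range_self (n + 1))
    ((h4 _ (hycl (n + 1) (n + 1) le_rfl T0 h2) _
      (hycl j (n + 1) (by linarith [hpj j k0]) T0 h1)).trans_lt hk0)
  have h7 := (hval (n + 1)).2
  have h8 := (hval j).1
  rw [(hmono j j le_rfl n (hpj j k0)).2.2.2] at h5
  rw [Real.dist_eq, abs_lt] at h6
  linarith [h6.1]

/-- the basic jump functions -/
noncomputable def J0 (t v : ℝ) : ℝ → ℝ := fun r => if r < t then 0 else if r = t then v else 1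

theorem J0_mem (t : ℝ) {v : ℝ} (hv : v ∈ Icc (0 : ℝ) 1) : J0 t v ∈ H := by
  refine ⟨fun a b hab => ?_, fun r => ?_⟩
  · unfold J0
    obtain ⟨h1, h2⟩ := hv
    by_cases ha : a < t
    · rw [if_pos ha]; split_ifs <;> linarith
    · have hb : ¬ b < t := fun hb => ha (hab.trans_lt hb)
      rw [if_neg ha, if_neg hb]
      by_cases hb' : b = t
      · rw [if_pos hb', if_pos (le_antisymm (hab.trans_eq hb') (not_lt.1 ha))]
      · rw [if_neg hb']; split_ifs <;> linarith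
  · unfold J0
    split_ifs
    · exact ⟨le_rfl, zero_le_one⟩
    · exact hv
    · exact ⟨zero_le_one, le_rfl⟩

theorem exists_good {Φ : X → (ℝ → ℝ) → ℝ} {x : ℝ → X} (hΦ : ∀ y, ContinuousOn (Φ y) H)
    {T : Set ℝ} (hT : ¬ T.Countable) (hx : ∀ t ∈ T, Φ (x t) (J0 t 0) < Φ (x t) (J0 t 1)) :
    ∃ S0 : St, Good Φ x S0 ∧ S0.n = 0 := by
  have key : ∀ t ∈ T, ∃ c : ℚ × ℚ × ℚ × ℕ, (c.1 : ℝ) < c.2.1 ∧ ∀ g ∈ H,
      (∀ r, 1 / ((c.2.2.2 : ℝ) + 1) < |r - t| → g r = if r < t then 0 else 1) →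
      (g t = 0 → Φ (x t) g ≤ c.1) ∧ (g t = 1 → Φ (x t) g ∈ Icc (c.2.1 : ℝ) c.2.2.1) := by
    intro t ht
    obtain ⟨a, ha1, ha2⟩ := exists_rat_btwn (hx t ht)
    obtain ⟨b, hb1, hb2⟩ := exists_rat_btwn ha2
    obtain ⟨c, hc⟩ := exists_rat_gt (Φ (x t) (J0 t 1))
    obtain ⟨F0, δ0, hδ0, hF0⟩ := cont_fin (hΦ (x t)) (J0_mem t (left_mem_Icc.2 zero_le_one))
      (sub_pos.2 ha1)
    obtain ⟨F1, δ1, hδ1, hF1⟩ := cont_fin (hΦ (x t)) (J0_mem t (right_mem_Icc.2 zero_le_one))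
      (lt_min (sub_pos.2 hb2) (sub_pos.2 hc))
    obtain ⟨k, hk⟩ := exists_gap (F0 ∪ F1) {t}
    refine ⟨(a, b, c, k), hb1, fun g hg hgr => ⟨fun h0 => ?_, fun h1 => ?_⟩⟩
    · have := hF0 g hg fun r hr => by
        by_cases hrt : r = t
        · simp [hrt, h0, J0, hδ0]
        · rw [hgr r (hk r (Finset.mem_union_left _ hr) t (Finset.mem_singleton_self _) hrt)]
          simp [J0, hrt, hδ0]
      linarith [(abs_lt.1 this).2]
    · have := hF1 g hg fun r hr => by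
        by_cases hrt : r = t
        · simp [hrt, h1, J0, hδ1]
        · rw [hgr r (hk r (Finset.mem_union_right _ hr) t (Finset.mem_singleton_self _) hrt)]
          simp [J0, hrt, hδ1]
      have h2 := abs_lt.1 (this.trans_le (min_le_left _ _))
      have h3 := abs_lt.1 (this.trans_le (min_le_right _ _))
      constructor <;> simp only <;> linarith [h2.1, h3.2]
  obtain ⟨c, hc⟩ := unc_fiber hT _ key
  obtain ⟨s, hs, hrc⟩ := exists_rc hc
  set ρ : ℝ := 1 / ((c.2.2.2 : ℝ) + 1) with hρ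
  have hρ0 : 0 < ρ := by positivity
  set T2 := {t ∈ T | (c.1 : ℝ) < c.2.1 ∧ ∀ g ∈ H,
      (∀ r, ρ < |r - t| → g r = if r < t then 0 else 1) →
      (g t = 0 → Φ (x t) g ≤ c.1) ∧ (g t = 1 → Φ (x t) g ∈ Icc (c.2.1 : ℝ) c.2.2.1)} with hT2
  let B0 : Box := ⟨s, s + ρ, T2 ∩ Ioo s (s + ρ), c.1, (c.1 + c.2.1) / 2, c.2.1, c.2.2.1⟩
  let S0 : St := ⟨0, J0 s 0, fun _ => B0⟩
  have hlt := hs.2.1
  have hu1 : ∀ r, s < r → J0 s 0 r = 1 := fun r hr => by simp [J0, hr.le, hr.ne']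
  have hu0 : ∀ r, r ≤ s → J0 s 0 r = 0 := fun r hr => by
    rcases hr.eq_or_lt with h | h <;> simp [J0, h]
  have hkey : ∀ t ∈ T2 ∩ Ioo s (s + ρ), ∀ g ∈ S0.Hs,
      (g t = 0 → Φ (x t) g ≤ c.1) ∧ (g t = 1 → Φ (x t) g ∈ Icc (c.2.1 : ℝ) c.2.2.1) := by
    intro t ht g hg
    refine ht.1.2.2 g hg.1 fun r hr => ?_
    rcases le_total r t with h | h
    · rw [abs_of_nonpos (sub_nonpos.2 h)] at hr
      rw [hg.2 r fun j _ hm => by simp only [S0, B0] at hm; linarith [hm.1, ht.2.2],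
        if_pos (by linarith)]
      exact hu0 r (by linarith [ht.2.2])
    · rw [abs_of_nonneg (sub_nonneg.2 h)] at hr
      rw [hg.2 r fun j _ hm => by simp only [S0, B0] at hm; linarith [hm.2, ht.2.1],
        if_neg (by linarith)]
      exact hu1 r (by linarith [ht.2.1])
  refine ⟨S0, ⟨J0_mem s (left_mem_Icc.2 zero_le_one), ?_, ?_, ?_, ?_, ?_, ?_, ?_, ?_, ?_⟩, rfl⟩
  · intro j _; simp only [S0, B0]; linarith
  · intro j hj k hk hjk; simp only [S0] at hj hk; omega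
  · intro j _ r hr
    simp only [S0, B0] at hr ⊢
    rw [hu1 r hr.1, hu1 _ (by linarith)]
  · intro j _; exact inter_subset_right
  · intro j _; exact rc_mono hrc (by linarith)
  · intro j _; simp only [S0, B0]; linarith
  · intro j _; simp only [S0, B0]; linarith
  · intro j _ t ht g hg hgt
    exact (hkey t ht g hg).1 (hgt.trans (hu0 _ le_rfl))
  · intro j _ t ht g hg hgt
    exact (hkey t ht g hg).2 (hgt.trans (hu1 _ (by simp only [S0, B0]; linarith)))

theorem main [MetricSpace X] [SecondCountableTopology X] [CompleteSpace X]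
    {Φ : X → (ℝ → ℝ) → ℝ} (hΦ : ∀ y, ContinuousOn (Φ y) H)
    (hsc : ∀ f ∈ H, ∀ A : Set X, A.Nonempty → ∃ a ∈ A, ContinuousWithinAt (fun y => Φ y f) A a)
    (hsep : ∀ f ∈ H, ∀ g ∈ H, (∀ y, Φ y f = Φ y g) → f = g) : False := by
  have h1 : ∀ t : ℝ, ∃ y, Φ y (J0 t 0) ≠ Φ y (J0 t 1) := by
    intro t
    by_contra h
    push Not at h
    have := congrFun (hsep _ (J0_mem t (left_mem_Icc.2 zero_le_one)) _
      (J0_mem t (right_mem_Icc.2 zero_le_one)) h) t
    simp [J0] at this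
  choose x hx using h1
  by_cases hc : {t | Φ (x t) (J0 t 0) < Φ (x t) (J0 t 1)}.Countable
  · have hc' : ¬ {t | Φ (x t) (J0 t 1) < Φ (x t) (J0 t 0)}.Countable := by
      intro h
      refine Cardinal.not_countable_real ((hc.union h).mono fun t _ => ?_)
      exact lt_or_gt_of_ne (hx t)
    obtain ⟨S0, h1, h2⟩ := exists_good (Φ := fun y f => - Φ y f) (x := x)
      (fun y => (hΦ y).neg) hc' fun t ht => neg_lt_neg ht
    refine no_good (fun y => (hΦ y).neg) (fun f hf A hA => ?_) h1 h2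
    obtain ⟨a, ha, h⟩ := hsc f hf A hA
    exact ⟨a, ha, h.neg⟩
  · obtain ⟨S0, h1, h2⟩ := exists_good (x := x) hΦ hc fun t ht => ht
    exact no_good hΦ hsc h1 h2

theorem final :
    ¬ (∀ S : Set ((ℕ → ℕ) → ℝ), IsCompact S →
      (∀ f ∈ S, ∃ u : ℕ → (ℕ → ℕ) → ℝ, (∀ n, Continuous (u n)) ∧
          ∀ x, Filter.Tendsto (fun n => u n x) Filter.atTop (nhds (f x))) →
      ∃ T : Set ((ℕ → ℕ) → ℝ), IsCompact T ∧
        (∀ g ∈ T, ∀ A : Set (ℕ → ℕ), A.Nonempty → ∃ a ∈ A, ContinuousWithinAt g A a) ∧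
        Nonempty (S ≃ₜ T)) := by
  intro h
  obtain ⟨π, hπ, hsurj⟩ := PolishSpace.exists_nat_nat_continuous_surjective ℝ
  have hc : Continuous fun f : ℝ → ℝ => f ∘ π := continuous_pi fun y => continuous_apply (π y)
  obtain ⟨T, _, hT, ⟨e⟩⟩ := h ((fun f : ℝ → ℝ => f ∘ π) '' H) (isCompact_H.image hc) (by
    rintro _ ⟨f, hf, rfl⟩
    obtain ⟨u, hu1, hu2⟩ := baire_one hf
    exact ⟨fun n => u n ∘ π, fun n => (hu1 n).comp hπ, fun y => hu2 (π y)⟩)
  classical
  let Φ : (ℕ → ℕ) → (ℝ → ℝ) → ℝ := fun y f =>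
    if hf : f ∈ H then (e ⟨f ∘ π, f, hf, rfl⟩ : (ℕ → ℕ) → ℝ) y else 0
  letI := TopologicalSpace.upgradeIsCompletelyMetrizable (ℕ → ℕ)
  refine main (Φ := Φ) (fun y => ?_) (fun f hf A hA => ?_) (fun f hf g hg hfg => ?_)
  · rw [continuousOn_iff_continuous_restrict]
    have : H.domRestrict (Φ y) = fun f : H =>
        (e ⟨f.1 ∘ π, f.1, f.2, rfl⟩ : (ℕ → ℕ) → ℝ) y := by
      funext f; exact dif_pos f.2
    rw [this]
    exact (continuous_apply y).comp (continuous_subtype_val.comp (e.continuous.comp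
      ((hc.comp continuous_subtype_val).subtype_mk _)))
  · simp only [Φ, dif_pos hf]
    exact hT _ (e ⟨f ∘ π, f, hf, rfl⟩).2 A hA
  · simp only [Φ, dif_pos hf, dif_pos hg] at hfg
    have h1 : e ⟨f ∘ π, f, hf, rfl⟩ = e ⟨g ∘ π, g, hg, rfl⟩ := Subtype.ext (funext hfg)
    have h2 : f ∘ π = g ∘ π := congrArg Subtype.val (e.injective h1)
    exact hsurj.injective_comp_right h2

end Pool.Agent.H827Z.Helly
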