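import Pool.Agent.H827Z.Helly.Step

set_option autoImplicit false

open Set Filter Topology

namespace Pool.Agent.H827Z.Helly

variable {X : Type*}

/-- relation between consecutive states -/
structure Rel [MetricSpace X] (Φ : X → (ℝ → ℝ) → ℝ) (x : ℝ → X) (S S' : St) (i : ℕ) (ε : ℝ) :
    Prop where
  n_eq : S'.n = S.n + 1
  u_le : ∀ r, S'.u r ≤ S.u r
  T_sub : ∀ j ≤ S.n, (S'.B j).T ⊆ (S.B j).T
  hi_eq : ∀ j ≤ S.n, (S'.B j).hi = (S.B j).hi
  top_eq : ∀ j ≤ S.n, (S'.B j).top = (S.B j).top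
  cap_eq : ∀ j ≤ S.n, (S'.B j).cap = (S.B j).cap
  child : (S'.B (S.n + 1)).top ≤ (S.B i).cap
  loc : ∃ T0 : Set ℝ, (S'.B i).T ⊆ T0 ∧ (S'.B (S.n + 1)).T ⊆ T0 ∧
    (∀ y ∈ closure (x '' T0), Φ y S.u ∈ Icc ((S.B i).hi - ε) ((S.B i).top + ε)) ∧
    ∀ y ∈ closure (x '' T0), ∀ z ∈ closure (x '' T0), dist y z ≤ ε

theorem u_mem_Hs {Φ : X → (ℝ → ℝ) → ℝ} {x : ℝ → X} {S : St} (hS : Good Φ x S) : S.u ∈ S.Hs :=
  ⟨hS.uH, fun _ _ => rfl⟩

theorem rc_mono {T : Set ℝ} {p : ℝ} (h : ∀ ρ > 0, ¬ (T ∩ Ioo p (p + ρ)).Countable) {q : ℝ}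
    (hq : p < q) : ∀ ρ > 0, ¬ ((T ∩ Ioo p q) ∩ Ioo p (p + ρ)).Countable := by
  intro ρ hρ hc
  refine h (min ρ (q - p)) (lt_min hρ (sub_pos.2 hq)) (hc.mono ?_)
  rintro t ⟨ht, h1, h2⟩
  refine ⟨⟨ht, h1, ?_⟩, h1, ?_⟩
  · linarith [min_le_right ρ (q - p)]
  · linarith [min_le_left ρ (q - p)]

/-- the level and gap found for one position -/
theorem level {Φ : X → (ℝ → ℝ) → ℝ} {x : ℝ → X} (hΦ : ∀ y, ContinuousOn (Φ y) H) {S : St}
    (hS : Good Φ x S) {i : ℕ} (hi : i ≤ S.n) {γ η : ℝ} (hη : 0 < η)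
    (hγ : γ ∈ Icc (S.B i).lo (S.B i).hi) {t : ℝ} (ht : t ∈ (S.B i).T) :
    ∃ c : ℚ × ℕ, ∀ g ∈ H, g t = max (S.u (S.B i).p) (min (S.u (S.B i).q) c.1) →
      (∀ r, 1 / ((c.2 : ℝ) + 1) < |r - t| →
        (∀ j ≤ S.n, r ∉ Ioo (S.B j).p ((S.B j).p + 1 / ((c.2 : ℝ) + 1))) →
        g r = if r ∈ Ioo (S.B i).p t then S.u (S.B i).p else S.u r) →
      |Φ (x t) g - γ| < η := by
  have htI := hS.sub i hi ht
  have hut : S.u t = S.u (S.B i).q := hS.flat i hi t ⟨htI.1, htI.2.le⟩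
  have hab : S.u (S.B i).p ≤ S.u (S.B i).q := hS.uH.1 (hS.pq i hi).le
  have hJ : ∀ v ∈ Icc (S.u (S.B i).p) (S.u (S.B i).q), J S.u (S.B i).p t v ∈ S.Hs := by
    intro v hv
    refine ⟨J_mem hS.uH htI.1 (hut ▸ hv), fun r hr => ?_⟩
    have h1 := hr i hi
    have h2 : r ∉ Ioo (S.B i).p t := fun h => h1 ⟨h.1, h.2.trans htI.2⟩
    have h3 : r ≠ t := fun h => h1 (h ▸ htI)
    simp only [J, if_neg h2, if_neg h3]
  have hcont : ContinuousOn (fun v => Φ (x t) (J S.u (S.B i).p t v))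
      (Icc (S.u (S.B i).p) (S.u (S.B i).q)) :=
    (hΦ (x t)).comp (J_cont _ _ _).continuousOn fun v hv => (hJ v hv).1
  have h1 := hS.low i hi t ht _ (hJ _ (left_mem_Icc.2 hab)) (J_self _ _ _ _)
  have h2 := (hS.high i hi t ht _ (hJ _ (right_mem_Icc.2 hab)) (J_self _ _ _ _)).1
  obtain ⟨v, hv, hvγ⟩ := intermediate_value_Icc hab hcont ⟨h1.trans hγ.1, hγ.2.trans h2⟩
  obtain ⟨F, δ, hδ, hF⟩ := cont_fin (hΦ (x t)) (hJ v hv).1 hη
  obtain ⟨k, hk⟩ := exists_gap F (insert t ((Finset.range (S.n + 1)).image fun j => (S.B j).p))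
  obtain ⟨c, hc⟩ := exists_rat_near v hδ
  refine ⟨(c, k), fun g hg hgt hgr => ?_⟩
  simp only at hvγ
  rw [← hvγ]
  refine hF g hg fun r hr => ?_
  by_cases hrt : r = t
  · rw [hrt, J_self, hgt]
    simp only
    rw [abs_lt] at hc ⊢
    obtain ⟨hv1, hv2⟩ := hv
    constructor
    · rcases le_total (S.u (S.B i).q) c with h | h
      · rw [min_eq_left h]
        linarith [le_max_right (S.u (S.B i).p) (S.u (S.B i).q)]
      · rw [min_eq_right h]
        linarith [le_max_right (S.u (S.B i).p) (c : ℝ)]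
    · have : max (S.u (S.B i).p) (min (S.u (S.B i).q) c) < v + δ :=
        max_lt (by linarith) ((min_le_right _ _).trans_lt (by linarith))
      linarith
  · rw [hgr r (hk r hr t (Finset.mem_insert_self _ _) hrt)]
    · simp only [J, if_neg hrt, sub_self, abs_zero, hδ]
    · intro j hj hmem
      have := hk r hr (S.B j).p (Finset.mem_insert_of_mem
        (Finset.mem_image.2 ⟨j, Finset.mem_range.2 (Nat.lt_succ_of_le hj), rfl⟩)) hmem.1.ne'
      rw [abs_of_pos (sub_pos.2 hmem.1)] at this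
      linarith [hmem.2]

theorem step [MetricSpace X] [SecondCountableTopology X] {Φ : X → (ℝ → ℝ) → ℝ} {x : ℝ → X}
    (hΦ : ∀ y, ContinuousOn (Φ y) H)
    (hsc : ∀ f ∈ H, ∀ A : Set X, A.Nonempty → ∃ a ∈ A, ContinuousWithinAt (fun y => Φ y f) A a)
    {S : St} (hS : Good Φ x S) {i : ℕ} (hi : i ≤ S.n) {ε : ℝ} (hε : 0 < ε) :
    ∃ S', Good Φ x S' ∧ Rel Φ x S S' i ε := by
  have hTi : ¬ (S.B i).T.Countable := fun h => hS.rc i hi 1 one_pos (h.mono inter_subset_left)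
  obtain ⟨T0, hT0, hT0c, hT0v, hT0d⟩ := localize x (fun y => Φ y S.u) (hsc _ hS.uH) hTi hε
    (fun t ht => hS.high i hi t ht _ (u_mem_Hs hS)
      (hS.flat i hi t ⟨(hS.sub i hi ht).1, (hS.sub i hi ht).2.le⟩))
  set γ := ((S.B i).lo + (S.B i).cap) / 2 with hγ
  set η := ((S.B i).cap - (S.B i).lo) / 4 with hη
  have hlc := hS.lc i hi
  have hch := hS.ch i hi
  have hη0 : 0 < η := by rw [hη]; linarith
  obtain ⟨c, hc⟩ := unc_fiber hT0c _ fun t ht => level hΦ hS hi hη0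
    (show γ ∈ Icc (S.B i).lo (S.B i).hi from ⟨by linarith, by linarith⟩) (hT0 ht)
  set T2 := {t ∈ T0 | ∀ g ∈ H, g t = max (S.u (S.B i).p) (min (S.u (S.B i).q) c.1) →
      (∀ r, 1 / ((c.2 : ℝ) + 1) < |r - t| →
        (∀ j ≤ S.n, r ∉ Ioo (S.B j).p ((S.B j).p + 1 / ((c.2 : ℝ) + 1))) →
        g r = if r ∈ Ioo (S.B i).p t then S.u (S.B i).p else S.u r) →
      |Φ (x t) g - γ| < η} with hT2
  set ρ : ℝ := 1 / ((c.2 : ℝ) + 1) with hρ
  have hρ0 : 0 < ρ := by positivity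
  set a := S.u (S.B i).p with ha
  set b := S.u (S.B i).q with hb
  set m := max a (min b c.1) with hm
  have hab : a ≤ b := hS.uH.1 (hS.pq i hi).le
  have ham : a ≤ m := le_max_left _ _
  have hmb : m ≤ b := max_le hab (min_le_left _ _)
  obtain ⟨s1, hs1, hrc1⟩ := exists_rc hc
  obtain ⟨s2, hs2, hrc2'⟩ := exists_rc (hrc1 ρ hρ0)
  have hrc2 : ∀ ρ' > 0, ¬ (T2 ∩ Ioo s2 (s2 + ρ')).Countable := fun ρ' h hcn =>
    hrc2' ρ' h (hcn.mono (inter_subset_inter_left _ inter_subset_left))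
  have hs1I := hS.sub i hi (hT0 hs1.1)
  have hs2I := hS.sub i hi (hT0 hs2.1.1)
  have h12 : s1 < s2 := hs2.2.1
  set q' := min (S.B i).q (s1 + ρ) with hq'
  have h2q : s2 < q' := lt_min hs2I.2 hs2.2.2
  have hq'1 : q' ≤ (S.B i).q := min_le_left _ _
  have hq'2 : q' ≤ s1 + ρ := min_le_right _ _
  set u' := cutf S.u (S.B i).p s1 s2 m with hu'
  have hu'H : u' ∈ H := cutf_mem hS.uH hs1I.1 h12 ham fun r hr =>
    hmb.trans (by
      rw [hb, ← hS.flat i hi s2 ⟨hs2I.1, hs2I.2.le⟩]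
      exact hS.uH.1 hr.le)
  have hu'out : ∀ r, r ∉ Ioc (S.B i).p s2 → u' r = S.u r := by
    intro r hr
    have h1 : r ∉ Ioc (S.B i).p s1 := fun h => hr ⟨h.1, h.2.trans h12.le⟩
    have h2 : r ∉ Ioc s1 s2 := fun h => hr ⟨hs1I.1.trans h.1, h.2⟩
    simp only [hu', cutf, if_neg h1, if_neg h2]
  have hu'a : ∀ r ∈ Ioc (S.B i).p s1, u' r = a := fun r hr => by
    simp only [hu', cutf, if_pos hr, ha]
  have hu'm : ∀ r ∈ Ioc s1 s2, u' r = m := fun r hr => by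
    have h1 : r ∉ Ioc (S.B i).p s1 := fun h => absurd hr.1 (not_lt.2 h.2)
    simp only [hu', cutf, if_neg h1, if_pos hr]
  let BL : Box := ⟨s1, s2, T2 ∩ Ioo s1 s2, (S.B i).lo, ((S.B i).lo + (γ - η)) / 2, γ - η, γ + η⟩
  let BR : Box := ⟨s2, q', T2 ∩ Ioo s2 q', γ + η, (S.B i).cap, (S.B i).hi, (S.B i).top⟩
  let BO : ℕ → Box := fun j => ⟨(S.B j).p, min (S.B j).q ((S.B j).p + ρ),
    (S.B j).T ∩ Ioo (S.B j).p (min (S.B j).q ((S.B j).p + ρ)), (S.B j).lo, (S.B j).cap,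
    (S.B j).hi, (S.B j).top⟩
  let B' : ℕ → Box := fun j => if j = S.n + 1 then BL else if j = i then BR else BO j
  have hBL : B' (S.n + 1) = BL := by simp [B']
  have hBR : B' i = BR := by simp [B', show i ≠ S.n + 1 by omega]
  have hBO : ∀ j ≤ S.n, j ≠ i → B' j = BO j := fun j hj hji => by
    simp [B', show j ≠ S.n + 1 by omega, hji]
  have hcase : ∀ j ≤ S.n + 1, (j = S.n + 1 ∧ B' j = BL) ∨ (j = i ∧ B' j = BR) ∨
      (j ≤ S.n ∧ j ≠ i ∧ B' j = BO j) := by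
    intro j hj
    by_cases h1 : j = S.n + 1
    · exact Or.inl ⟨h1, h1 ▸ hBL⟩
    · by_cases h2 : j = i
      · exact Or.inr (Or.inl ⟨h2, h2 ▸ hBR⟩)
      · exact Or.inr (Or.inr ⟨by omega, h2, hBO j (by omega) h2⟩)
  let S' : St := ⟨S.n + 1, u', B'⟩
  have hBOpq : ∀ j ≤ S.n, (S.B j).p < min (S.B j).q ((S.B j).p + ρ) := fun j hj =>
    lt_min (hS.pq j hj) (by linarith)
  -- other boxes are away from the modified region
  have haway : ∀ j ≤ S.n, j ≠ i → ∀ r ∈ Icc (S.B j).p (S.B j).q, r ∉ Ioc (S.B i).p s2 := by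
    intro j hj hji r hr hr'
    rcases hS.disj j hj i hi hji with h | h
    · linarith [hr.2, hr'.1]
    · linarith [hr.1, hr'.2, hs2I.2]
  have hHs : S'.Hs ⊆ S.Hs := by
    intro g hg
    refine ⟨hg.1, fun r hr => ?_⟩
    have hri := hr i hi
    rw [hg.2 r, ]
    · exact hu'out r fun h => hri ⟨h.1, h.2.trans_lt hs2I.2⟩
    · intro j hj hmem
      rcases hcase j hj with ⟨_, h⟩ | ⟨_, h⟩ | ⟨h1, _, h⟩
      · simp only [S', h, BL] at hmem
        exact hri ⟨hs1I.1.trans hmem.1, hmem.2.trans hs2I.2⟩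
      · simp only [S', h, BR] at hmem
        exact hri ⟨hs2I.1.trans hmem.1, hmem.2.trans_le hq'1⟩
      · simp only [S', h, BO] at hmem
        exact hr j h1 ⟨hmem.1, hmem.2.trans_le (min_le_left _ _)⟩
  -- the middle level
  have hmid : ∀ t ∈ T2, t ∈ Ioo s1 q' → ∀ g ∈ S'.Hs, g t = m → |Φ (x t) g - γ| < η := by
    intro t ht htI g hg hgt
    refine ht.2 g hg.1 hgt fun r hr1 hr2 => ?_
    have hr3 : r < s1 ∨ q' < r := by
      rcases le_total r t with h | h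
      · rw [abs_of_nonpos (sub_nonpos.2 h)] at hr1
        left; linarith [htI.2]
      · rw [abs_of_nonneg (sub_nonneg.2 h)] at hr1
        right; linarith [htI.1]
    rw [hg.2 r]
    · change u' r = _
      split_ifs with h
      · refine hu'a r ⟨h.1, ?_⟩
        rcases hr3 with h3 | h3
        · exact h3.le
        · linarith [h.2, htI.2]
      · refine hu'out r fun h' => ?_
        rcases hr3 with h3 | h3
        · exact h ⟨h'.1, h3.trans htI.1⟩
        · linarith [h'.2]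
    · intro j hj hmem
      rcases hcase j hj with ⟨_, h⟩ | ⟨_, h⟩ | ⟨h1, _, h⟩
      · simp only [S', h, BL] at hmem
        rcases hr3 with h3 | h3 <;> linarith [hmem.1, hmem.2]
      · simp only [S', h, BR] at hmem
        rcases hr3 with h3 | h3 <;> linarith [hmem.1, hmem.2]
      · simp only [S', h, BO] at hmem
        exact hr2 j h1 ⟨hmem.1, hmem.2.trans_le (min_le_right _ _)⟩
  have hT2sub : T2 ⊆ (S.B i).T := fun t ht => hT0 ht.1
  refine ⟨S', ⟨hu'H, ?_, ?_, ?_, ?_, ?_, ?_, ?_, ?_, ?_⟩, ⟨rfl, ?_, ?_, ?_, ?_, ?_, ?_, ?_⟩⟩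
  · intro j hj
    rcases hcase j hj with ⟨_, h⟩ | ⟨_, h⟩ | ⟨h1, _, h⟩
    · simp only [S', h, BL]; exact h12
    · simp only [S', h, BR]; exact h2q
    · simp only [S', h, BO]; exact hBOpq j h1
  · intro j hj k hk hjk
    rcases hcase j hj with ⟨e, h⟩ | ⟨e, h⟩ | ⟨h1, h2, h⟩ <;>
      rcases hcase k hk with ⟨e', h'⟩ | ⟨e', h'⟩ | ⟨h1', h2', h'⟩ <;>
      simp only [S', h, h', BL, BR, BO]
    · omega
    · exact Or.inl le_rfl
    · rcases hS.disj k h1' i hi h2' with h3 | h3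
      · right; linarith [min_le_left (S.B k).q ((S.B k).p + ρ), hs1I.1]
      · left; linarith [hs2I.2]
    · exact Or.inr le_rfl
    · omega
    · rcases hS.disj k h1' i hi h2' with h3 | h3
      · right; linarith [min_le_left (S.B k).q ((S.B k).p + ρ), hs2I.1]
      · left; linarith
    · rcases hS.disj j h1 i hi h2 with h3 | h3
      · left; linarith [min_le_left (S.B j).q ((S.B j).p + ρ), hs1I.1]
      · right; linarith [hs2I.2]
    · rcases hS.disj j h1 i hi h2 with h3 | h3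
      · left; linarith [min_le_left (S.B j).q ((S.B j).p + ρ), hs2I.1]
      · right; linarith
    · rcases hS.disj j h1 k h1' hjk with h3 | h3
      · left; linarith [min_le_left (S.B j).q ((S.B j).p + ρ)]
      · right; linarith [min_le_left (S.B k).q ((S.B k).p + ρ)]
  · intro j hj r hr
    rcases hcase j hj with ⟨_, h⟩ | ⟨_, h⟩ | ⟨h1, h2, h⟩
    · simp only [S', h, BL] at hr ⊢
      rw [hu'm r hr, hu'm s2 ⟨h12, le_rfl⟩]
    · simp only [S', h, BR] at hr ⊢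
      rw [hu'out r fun h' => absurd hr.1 (not_lt.2 h'.2),
        hu'out q' fun h' => absurd h2q (not_lt.2 h'.2),
        hS.flat i hi r ⟨hs2I.1.trans hr.1, hr.2.trans hq'1⟩,
        hS.flat i hi q' ⟨hs2I.1.trans h2q, hq'1⟩]
    · simp only [S', h, BO] at hr ⊢
      rw [hu'out r (haway j h1 h2 r ⟨hr.1.le, hr.2.trans (min_le_left _ _)⟩),
        hu'out _ (haway j h1 h2 _ ⟨(hBOpq j h1).le, min_le_left _ _⟩),
        hS.flat j h1 r ⟨hr.1, hr.2.trans (min_le_left _ _)⟩,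
        hS.flat j h1 _ ⟨hBOpq j h1, min_le_left _ _⟩]
  · intro j hj
    rcases hcase j hj with ⟨_, h⟩ | ⟨_, h⟩ | ⟨h1, _, h⟩
    · simp only [S', h, BL]; exact inter_subset_right
    · simp only [S', h, BR]; exact inter_subset_right
    · simp only [S', h, BO]; exact inter_subset_right
  · intro j hj
    rcases hcase j hj with ⟨_, h⟩ | ⟨_, h⟩ | ⟨h1, _, h⟩
    · simp only [S', h, BL]; exact rc_mono hrc1 h12
    · simp only [S', h, BR]; exact rc_mono hrc2 h2q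
    · simp only [S', h, BO]; exact rc_mono (hS.rc j h1) (hBOpq j h1)
  · intro j hj
    rcases hcase j hj with ⟨_, h⟩ | ⟨_, h⟩ | ⟨h1, _, h⟩
    · simp only [S', h, BL]; linarith
    · simp only [S', h, BR]; linarith
    · simp only [S', h, BO]; exact hS.lc j h1
  · intro j hj
    rcases hcase j hj with ⟨_, h⟩ | ⟨_, h⟩ | ⟨h1, _, h⟩
    · simp only [S', h, BL]; linarith
    · simp only [S', h, BR]; exact hch
    · simp only [S', h, BO]; exact hS.ch j h1
  · intro j hj t ht g hg hgt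
    rcases hcase j hj with ⟨_, h⟩ | ⟨_, h⟩ | ⟨h1, h2, h⟩
    · simp only [S', h, BL] at ht hgt ⊢
      exact hS.low i hi t (hT2sub ht.1) g (hHs hg) (hgt.trans (hu'a s1 ⟨hs1I.1, le_rfl⟩))
    · simp only [S', h, BR] at ht hgt ⊢
      have := hmid t ht.1 ⟨h12.trans ht.2.1, ht.2.2⟩ g hg (hgt.trans (hu'm s2 ⟨h12, le_rfl⟩))
      linarith [(abs_lt.1 this).2]
    · simp only [S', h, BO] at ht hgt ⊢
      exact hS.low j h1 t ht.1 g (hHs hg)
        (hgt.trans (hu'out _ (haway j h1 h2 _ ⟨le_rfl, (hS.pq j h1).le⟩)))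
  · intro j hj t ht g hg hgt
    rcases hcase j hj with ⟨_, h⟩ | ⟨_, h⟩ | ⟨h1, h2, h⟩
    · simp only [S', h, BL] at ht hgt ⊢
      have := hmid t ht.1 ⟨ht.2.1, ht.2.2.trans h2q⟩ g hg (hgt.trans (hu'm s2 ⟨h12, le_rfl⟩))
      constructor <;> linarith [(abs_lt.1 this).1, (abs_lt.1 this).2]
    · simp only [S', h, BR] at ht hgt ⊢
      refine hS.high i hi t (hT2sub ht.1) g (hHs hg) (hgt.trans ?_)
      rw [hu'out q' fun h' => absurd h2q (not_lt.2 h'.2), hS.flat i hi q' ⟨hs2I.1.trans h2q, hq'1⟩]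
    · simp only [S', h, BO] at ht hgt ⊢
      refine hS.high j h1 t ht.1 g (hHs hg) (hgt.trans ?_)
      rw [hu'out _ (haway j h1 h2 _ ⟨(hBOpq j h1).le, min_le_left _ _⟩),
        hS.flat j h1 _ ⟨hBOpq j h1, min_le_left _ _⟩]
  · intro r
    change u' r ≤ S.u r
    by_cases h1 : r ∈ Ioc (S.B i).p s1
    · rw [hu'a r h1]; exact hS.uH.1 h1.1.le
    · by_cases h2 : r ∈ Ioc s1 s2
      · rw [hu'm r h2, hS.flat i hi r ⟨hs1I.1.trans h2.1, h2.2.trans hs2I.2.le⟩]; exact hmb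
      · refine (hu'out r fun h => ?_).le
        by_cases h3 : r ≤ s1
        · exact h1 ⟨h.1, h3⟩
        · exact h2 ⟨not_le.1 h3, h.2⟩
  · intro j hj
    by_cases h : j = i
    · subst h; simp only [S', hBR, BR]; exact fun t ht => hT2sub ht.1
    · simp only [S', hBO j hj h, BO]; exact inter_subset_left
  · intro j hj
    by_cases h : j = i
    · subst h; simp only [S', hBR, BR]
    · simp only [S', hBO j hj h, BO]
  · intro j hj
    by_cases h : j = i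
    · subst h; simp only [S', hBR, BR]
    · simp only [S', hBO j hj h, BO]
  · intro j hj
    by_cases h : j = i
    · subst h; simp only [S', hBR, BR]
    · simp only [S', hBO j hj h, BO]
  · simp only [S', hBL, BL]; linarith
  · refine ⟨T0, ?_, ?_, hT0v, hT0d⟩
    · simp only [S', hBR, BR]; exact fun t ht => ht.1.1
    · simp only [S', hBL, BL]; exact fun t ht => ht.1.1

end Pool.Agent.H827Z.Helly
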