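import Pool.Agent.H827Z.Helly.Basic

set_option autoImplicit false

open Set Filter Topology

namespace Pool.Agent.H827Z.Helly

/-- a box: an interval of positions, a set of positions in it, and thresholds -/
structure Box where
  p : ℝ
  q : ℝ
  T : Set ℝ
  lo : ℝ
  cap : ℝ
  hi : ℝ
  top : ℝ

/-- a state of the construction -/
structure St where
  n : ℕ
  u : ℝ → ℝ
  B : ℕ → Box

/-- functions allowed by a state -/
def St.Hs (S : St) : Set (ℝ → ℝ) :=
  {g | g ∈ H ∧ ∀ r, (∀ j ≤ S.n, r ∉ Ioo (S.B j).p (S.B j).q) → g r = S.u r}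

variable {X : Type*}

/-- the invariant -/
structure Good (Φ : X → (ℝ → ℝ) → ℝ) (x : ℝ → X) (S : St) : Prop where
  uH : S.u ∈ H
  pq : ∀ j ≤ S.n, (S.B j).p < (S.B j).q
  disj : ∀ j ≤ S.n, ∀ k ≤ S.n, j ≠ k → (S.B j).q ≤ (S.B k).p ∨ (S.B k).q ≤ (S.B j).p
  flat : ∀ j ≤ S.n, ∀ r ∈ Ioc (S.B j).p (S.B j).q, S.u r = S.u (S.B j).q
  sub : ∀ j ≤ S.n, (S.B j).T ⊆ Ioo (S.B j).p (S.B j).q
  rc : ∀ j ≤ S.n, ∀ ρ > 0, ¬ ((S.B j).T ∩ Ioo (S.B j).p ((S.B j).p + ρ)).Countable
  lc : ∀ j ≤ S.n, (S.B j).lo < (S.B j).cap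
  ch : ∀ j ≤ S.n, (S.B j).cap < (S.B j).hi
  low : ∀ j ≤ S.n, ∀ t ∈ (S.B j).T, ∀ g ∈ S.Hs, g t = S.u (S.B j).p → Φ (x t) g ≤ (S.B j).lo
  high : ∀ j ≤ S.n, ∀ t ∈ (S.B j).T, ∀ g ∈ S.Hs, g t = S.u (S.B j).q →
    Φ (x t) g ∈ Icc (S.B j).hi (S.B j).top

/-- the function with a jump at `t` of value `v` inside the box starting at `p` -/
noncomputable def J (u : ℝ → ℝ) (p t v : ℝ) : ℝ → ℝ :=
  fun r => if r ∈ Ioo p t then u p else if r = t then v else u r

theorem J_mem {u : ℝ → ℝ} (hu : u ∈ H) {p t v : ℝ} (hpt : p < t) (hv : v ∈ Icc (u p) (u t)) :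
    J u p t v ∈ H := by
  refine ⟨fun a b hab => ?_, fun r => ?_⟩
  · unfold J
    by_cases ha : a ∈ Ioo p t
    · by_cases hb : b ∈ Ioo p t
      · simp [ha, hb]
      · rw [if_pos ha, if_neg hb]
        split_ifs with h
        · exact hv.1
        · exact hu.1 (ha.1.le.trans hab)
    · rw [if_neg ha]
      by_cases hat : a = t
      · rw [if_pos hat]
        have hb : b ∉ Ioo p t := fun hb => absurd hb.2 (not_lt.2 (hat ▸ hab))
        rw [if_neg hb]
        split_ifs with h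
        · exact le_rfl
        · exact hv.2.trans (hu.1 (hat ▸ hab))
      · rw [if_neg hat]
        by_cases hb : b ∈ Ioo p t
        · rw [if_pos hb]
          refine hu.1 ?_
          by_contra h
          exact ha ⟨not_le.1 h, hab.trans_lt hb.2⟩
        · rw [if_neg hb]
          split_ifs with h
          · refine le_trans (hu.1 ?_) hv.1
            by_contra h'
            exact ha ⟨not_le.1 h', lt_of_le_of_ne (h ▸ hab) hat⟩
          · exact hu.1 hab
  · unfold J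
    split_ifs
    · exact hu.2 _
    · exact ⟨(hu.2 _).1.trans hv.1, hv.2.trans (hu.2 _).2⟩
    · exact hu.2 _

theorem J_cont (u : ℝ → ℝ) (p t : ℝ) : Continuous (J u p t) := by
  refine continuous_pi fun r => ?_
  unfold J
  split_ifs
  · exact continuous_const
  · exact continuous_id
  · exact continuous_const

theorem J_self (u : ℝ → ℝ) (p t v : ℝ) : J u p t v t = v := by
  simp [J]

/-- the new upper function after a split -/
noncomputable def cutf (u : ℝ → ℝ) (p s1 s2 m : ℝ) : ℝ → ℝ :=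
  fun r => if r ∈ Ioc p s1 then u p else if r ∈ Ioc s1 s2 then m else u r

theorem cutf_mem {u : ℝ → ℝ} (hu : u ∈ H) {p s1 s2 m : ℝ} (h1 : p < s1) (h2 : s1 < s2)
    (hm : u p ≤ m) (hm' : ∀ r, s2 < r → m ≤ u r) : cutf u p s1 s2 m ∈ H := by
  refine ⟨fun a b hab => ?_, fun r => ?_⟩
  · unfold cutf
    simp only [mem_Ioc]
    have := hu.1
    split_ifs with ha hb hb ha' hb hb hb hb
    · exact le_rfl
    · exact hm
    · exact hu.1 (ha.1.le.trans hab)
    · exact absurd (ha'.1.trans_le (hab.trans hb.2)) (lt_irrefl _)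
    · exact le_rfl
    · refine hm' b ?_
      by_contra h
      exact hb ⟨ha'.1.trans_le hab, not_lt.1 h⟩
    · refine hu.1 ?_
      by_contra h
      exact ha ⟨not_le.1 h, hab.trans hb.2⟩
    · refine le_trans (hu.1 ?_) hm
      by_contra h
      by_cases h3 : a ≤ s1
      · exact ha ⟨not_le.1 h, h3⟩
      · exact ha' ⟨not_le.1 h3, hab.trans hb.2⟩
    · exact hu.1 hab
  · unfold cutf
    split_ifs
    · exact hu.2 _
    · exact ⟨(hu.2 _).1.trans hm, (hm' (s2 + 1) (by linarith)).trans (hu.2 _).2⟩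
    · exact hu.2 _

theorem localize [MetricSpace X] [SecondCountableTopology X] (x : ℝ → X) (ψ : X → ℝ)
    (hψ : ∀ A : Set X, A.Nonempty → ∃ a ∈ A, ContinuousWithinAt ψ A a) {T : Set ℝ}
    (hT : ¬ T.Countable) {a b ε : ℝ} (hε : 0 < ε) (hab : ∀ t ∈ T, ψ (x t) ∈ Icc a b) :
    ∃ T' ⊆ T, ¬ T'.Countable ∧ (∀ y ∈ closure (x '' T'), ψ y ∈ Icc (a - ε) (b + ε)) ∧
      ∀ y ∈ closure (x '' T'), ∀ z ∈ closure (x '' T'), dist y z ≤ ε := by
  set Bd := {t ∈ T | ∃ U ∈ 𝓝 (x t), (T ∩ x ⁻¹' U).Countable} with hBd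
  have hBc : Bd.Countable := cond_countable x T
  have hT1 : ¬ (T \ Bd).Countable := fun h => hT ((h.union hBc).mono fun t ht => by
    by_cases h' : t ∈ Bd
    · exact Or.inr h'
    · exact Or.inl ⟨ht, h'⟩)
  have hne : (T \ Bd).Nonempty := by
    by_contra h
    rw [not_nonempty_iff_eq_empty] at h
    exact hT1 (h ▸ countable_empty)
  obtain ⟨c, hc, hcont⟩ := hψ (closure (x '' (T \ Bd))) (hne.image x).closure
  obtain ⟨δ, hδ, hball⟩ := Metric.continuousWithinAt_iff.1 hcont (ε / 2) (half_pos hε)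
  set η := min (δ / 2) (ε / 2) with hη
  have hη0 : 0 < η := lt_min (half_pos hδ) (half_pos hε)
  obtain ⟨y0, ⟨t0, ht0, rfl⟩, hy0⟩ := Metric.mem_closure_iff.1 hc η hη0
  have hcl : closure (x '' ((T \ Bd) ∩ x ⁻¹' Metric.ball c η)) ⊆
      closure (x '' (T \ Bd)) ∩ Metric.closedBall c η := by
    refine subset_inter (closure_mono (image_mono inter_subset_left)) ?_
    refine closure_minimal ?_ Metric.isClosed_closedBall
    rintro _ ⟨t, ht, rfl⟩
    exact Metric.ball_subset_closedBall ht.2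
  refine ⟨(T \ Bd) ∩ x ⁻¹' Metric.ball c η, fun t ht => ht.1.1, fun h => ?_, fun y hy => ?_,
    fun y hy z hz => ?_⟩
  · refine ht0.2 ⟨ht0.1, Metric.ball c η, Metric.isOpen_ball.mem_nhds (by
      rwa [Metric.mem_ball, dist_comm]), (h.union hBc).mono fun t ht => ?_⟩
    by_cases h' : t ∈ Bd
    · exact Or.inr h'
    · exact Or.inl ⟨⟨ht.1, h'⟩, ht.2⟩
  · obtain ⟨hy1, hy2⟩ := hcl hy
    have h1 : dist (ψ y) (ψ c) < ε / 2 := hball hy1
      ((Metric.mem_closedBall.1 hy2).trans_lt ((min_le_left _ _).trans_lt (half_lt_self hδ)))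
    have h2 : dist (ψ (x t0)) (ψ c) < ε / 2 := hball (subset_closure ⟨t0, ht0, rfl⟩)
      (by rw [dist_comm]; exact hy0.trans ((min_le_left _ _).trans_lt (half_lt_self hδ)))
    rw [Real.dist_eq, abs_lt] at h1 h2
    have := hab t0 ht0.1
    constructor <;> linarith [this.1, this.2]
  · have h1 := Metric.mem_closedBall.1 (hcl hy).2
    have h2 := Metric.mem_closedBall.1 (hcl hz).2
    have := dist_triangle_right y z c
    linarith [min_le_right (δ / 2) (ε / 2)]

end Pool.Agent.H827Z.Helly
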